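import Pool.Agent.V113.Hol.Main

set_option autoImplicit false

open Polynomial Filter

namespace Pool.Agent.V113.Hol

universe u v

variable (p : ℕ)

/-- The generator. -/
noncomputable def gen (k : Type u) [Field k] : MM p k :=
  ⟨vv p k 0, Submodule.subset_span rfl⟩

theorem span_gen (k : Type u) [Field k] : Submodule.span (DiffOp k) {gen p k} = ⊤ := by
  rw [Submodule.eq_top_iff']
  intro x
  obtain ⟨P, hP⟩ := Submodule.mem_span_singleton.1 x.2
  rw [Submodule.mem_span_singleton]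
  exact ⟨P, Subtype.ext hP⟩

variable [hp : Fact p.Prime]

/-- The filtration. -/
noncomputable abbrev FF (k : Type u) [Field k] (i : ℕ) : Submodule k (MM p k) :=
  Filt k (Submodule.span k {gen p k}) i

theorem FF_le (k : Type u) [Field k] [CharP k p] (i : ℕ) (s : Finset ℤ)
    (hs : ∀ a t : ℕ, a + t ≤ i → (∀ j, ¬ (S p j < t ∧ t < G p j)) → ((a : ℤ) - t) ∈ s) :
    Module.finrank k (FF p k i) ≤ s.card := by
  have h1 : FF p k i ≤ (Submodule.span k (vv p k '' s)).comap (incl p k) := by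
    refine Submodule.span_le.2 ?_
    rintro x ⟨P, hP, m, hm, rfl⟩
    change incl p k (P • m) ∈ Submodule.span k (vv p k '' s)
    rw [incl_smul]
    apply bern_smul k i _ _ _ P hP
    intro a t hat
    obtain ⟨c, rfl⟩ := Submodule.mem_span_singleton.1 hm
    change op k a t • (c • vv p k 0) ∈ Submodule.span k (vv p k '' s)
    rw [end_smul_smul]
    apply Submodule.smul_mem
    by_cases h : ∃ j, S p j < t ∧ t < G p j
    · obtain ⟨j, hj1, hj2⟩ := h
      rw [op_smul_u p k a t hj1 hj2]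
      exact Submodule.zero_mem _
    · push Not at h
      obtain ⟨c, hc⟩ := op_smul_vv p k a t 0
      rw [hc]
      apply Submodule.smul_mem
      apply Submodule.subset_span
      refine ⟨_, ?_, rfl⟩
      rw [zero_add]
      exact hs a t hat (fun j hj => absurd hj.2 (not_lt.2 (h j hj.1)))
  have h2 := finite_comap p k s
  have := h2.1
  exact (Submodule.finrank_mono h1).trans h2.2

theorem le_FF (k : Type u) [Field k] [CharP k p] (i : ℕ) (s : Finset ℤ)
    (hs : ∀ m ∈ s, ∃ (a t : ℕ), a + t ≤ i ∧ m = (a : ℤ) - t ∧ (t = 0 ∨ ∃ j, t = G p j)) :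
    s.card ≤ Module.finrank k (FF p k i) := by
  classical
  -- an independent family
  have h0 : ∀ m ∈ s, ∃ x ∈ FF p k i, incl p k x = vv p k m := by
    intro m hm
    obtain ⟨a, t, hat, rfl, ht⟩ := hs m hm
    have hop : op k a t ∈ DiffOp k := by
      apply Subalgebra.mul_mem
      · exact Algebra.subset_adjoin (Or.inl ⟨_, rfl⟩)
      · exact Algebra.subset_adjoin (Or.inr ⟨_, rfl⟩)
    refine ⟨(⟨op k a t, hop⟩ : DiffOp k) • gen p k, ?_, ?_⟩
    · apply Submodule.subset_span
      refine ⟨_, Submodule.subset_span ⟨a, t, hat, rfl⟩, gen p k,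
        Submodule.mem_span_singleton_self _, rfl⟩
    · change op k a t • vv p k 0 = _
      rcases ht with rfl | ⟨j, rfl⟩
      · rw [op_smul_u_zero]
        simp
      · rw [op_smul_u_G]
  choose! f hf1 hf2 using h0
  have h1 : LinearIndependent k (fun m : s => (⟨f m, hf1 m m.2⟩ : FF p k i)) := by
    apply LinearIndependent.of_comp (incl p k ∘ₗ (FF p k i).subtype)
    have : (incl p k ∘ₗ (FF p k i).subtype) ∘ (fun m : s => (⟨f m, hf1 m m.2⟩ : FF p k i)) =
        fun m : s => vv p k m := by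
      funext m
      exact hf2 m m.2
    rw [this]
    exact (vv_linearIndependent p k).comp _ Subtype.val_injective
  have hfin : Module.Finite k (FF p k i) := by
    have h1 : FF p k i ≤ (Submodule.span k (vv p k '' (Finset.Icc (-(i : ℤ)) i))).comap
        (incl p k) := by
      rw [Finset.coe_Icc]
      refine Submodule.span_le.2 ?_
      rintro x ⟨P, hP, m, hm, rfl⟩
      have h2 := (HF_filtration p k).smul_mem i 0 P hP m ?_
      · exact h2
      · obtain ⟨c, rfl⟩ := Submodule.mem_span_singleton.1 hm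
        apply Submodule.smul_mem
        change vv p k 0 ∈ Submodule.span k _
        exact Submodule.subset_span ⟨0, by simp, rfl⟩
    have h2 := (finite_comap p k (Finset.Icc (-(i : ℤ)) i)).1
    exact Submodule.finiteDimensional_of_le h1
  have h3 := h1.fintype_card_le_finrank
  rwa [Fintype.card_coe] at h3

theorem upper1 (k : Type u) [Field k] [CharP k p] (i j : ℕ) (h : i < G p j) :
    Module.finrank k (FF p k i) ≤ i + 1 + S p j := by
  have h1 := FF_le p k i (Finset.Icc (-(S p j : ℤ)) i) (by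
    intro a t hat ht
    have h2 := ht j
    rw [Finset.mem_Icc]
    omega)
  rw [Int.card_Icc] at h1
  omega

theorem upper2 (k : Type u) [Field k] [CharP k p] (i j : ℕ) (h : G p j ≤ i) (h' : i < G p (j + 1)) :
    2 * Module.finrank k (FF p k i) ≤ 3 * (i + 1) + 4 * S p j := by
  have h1 := FF_le p k i (Finset.Icc (-(S p j : ℤ)) i ∪
    Finset.Icc (-((G p j : ℤ) + S p j)) (-(max 1 (2 * G p j - i : ℤ)))) (by
    intro a t hat ht
    have h2 := ht j
    have h3 := ht (j + 1)
    rw [S_succ] at h3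
    rw [Finset.mem_union, Finset.mem_Icc, Finset.mem_Icc]
    omega)
  have h2 := h1.trans (Finset.card_union_le _ _)
  rw [Int.card_Icc, Int.card_Icc] at h2
  omega

theorem lower (k : Type u) [Field k] [CharP k p] (j : ℕ) :
    3 * G p j ≤ Module.finrank k (FF p k (2 * G p j - 1)) := by
  have h1 := le_FF p k (2 * G p j - 1) (Finset.Icc (-(G p j : ℤ)) ((2 * G p j - 1 : ℕ) : ℤ)) (by
    intro m hm
    rw [Finset.mem_Icc] at hm
    by_cases hm0 : 0 ≤ m
    · exact ⟨m.toNat, 0, by omega, by omega, Or.inl rfl⟩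
    · exact ⟨(G p j + m).toNat, G p j, by omega, by omega, Or.inr ⟨j, rfl⟩⟩)
  rw [Int.card_Icc] at h1
  have := G_pos p j
  omega

theorem exists_between (i : ℕ) {j₀ : ℕ} (h : G p j₀ ≤ i) :
    ∃ j, j₀ ≤ j ∧ G p j ≤ i ∧ i < G p (j + 1) := by
  have hle : ∀ j, j ≤ G p j := fun _ => (G_strictMono p).le_apply
  refine ⟨Nat.findGreatest (fun j => G p j ≤ i) i, ?_, ?_, ?_⟩
  · exact Nat.le_findGreatest ((hle j₀).trans h) h
  · exact Nat.findGreatest_spec (P := fun j => G p j ≤ i) ((hle j₀).trans h) h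
  · by_contra h1
    rw [not_lt] at h1
    have h2 := Nat.le_findGreatest (P := fun j => G p j ≤ i) ((hle _).trans h1) h1
    omega

/-- The sequence `dim M_i / i`. -/
noncomputable def rat (k : Type u) [Field k] (i : ℕ) : ℝ :=
  (Module.finrank k (FF p k i) : ℝ) / (i : ℝ) ^ 1

theorem rat_upper (k : Type u) [Field k] [CharP k p] (j₀ : ℕ) :
    ∀ᶠ i in (atTop : Filter ℕ), rat p k i ≤ 3 / 2 + 4 / ((j₀ : ℝ) + 1) := by
  filter_upwards [eventually_ge_atTop (G p j₀ + 3 * (j₀ + 1))] with i hi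
  obtain ⟨j, hj, h1, h2⟩ := exists_between p i (j₀ := j₀) (by omega)
  have h3 := upper2 p k i j h1 h2
  have h4 := G_gt p j
  have hi0 : (0 : ℝ) < i := by
    have := G_pos p j₀
    exact_mod_cast (by omega : 0 < i)
  unfold rat
  rw [pow_one, div_le_iff₀ hi0]
  have h5 : (j₀ + 1) * (S p j) ≤ i := by nlinarith
  have h6 : 2 * ((j₀ : ℝ) + 1) * Module.finrank k (FF p k i) ≤
      (j₀ + 1) * (3 * (i + 1) + 4 * S p j) := by
    have h7 : (j₀ + 1) * (2 * Module.finrank k (FF p k i)) ≤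
      (j₀ + 1) * (3 * (i + 1) + 4 * S p j) := Nat.mul_le_mul_left _ h3
    have h8 : (((j₀ + 1) * (2 * Module.finrank k (FF p k i)) : ℕ) : ℝ) ≤
      (((j₀ + 1) * (3 * (i + 1) + 4 * S p j) : ℕ) : ℝ) := by exact_mod_cast h7
    push_cast at h8
    linarith
  have h7 : ((j₀ : ℝ) + 1) * S p j ≤ i := by exact_mod_cast h5
  have h8 : 3 * ((j₀ : ℝ) + 1) ≤ i := by
    have : 3 * (j₀ + 1) ≤ i := by omega
    exact_mod_cast this
  have hj0 : (0 : ℝ) < (j₀ : ℝ) + 1 := by positivity
  have h9 : (3 / 2 + 4 / ((j₀ : ℝ) + 1)) * i * (2 * ((j₀ : ℝ) + 1)) =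
      3 * (j₀ + 1) * i + 8 * i := by
    field_simp
    ring
  have h10 : 2 * ((j₀ : ℝ) + 1) * Module.finrank k (FF p k i) ≤
      (3 / 2 + 4 / ((j₀ : ℝ) + 1)) * i * (2 * ((j₀ : ℝ) + 1)) := by
    rw [h9]
    nlinarith
  have h11 : (0 : ℝ) < 2 * ((j₀ : ℝ) + 1) := by positivity
  nlinarith

theorem rat_frequently_ge (k : Type u) [Field k] [CharP k p] :
    ∃ᶠ i in (atTop : Filter ℕ), 3 / 2 ≤ rat p k i := by
  rw [frequently_atTop]
  intro a
  have hle : a ≤ G p a := (G_strictMono p).le_apply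
  have hpos := G_pos p a
  refine ⟨2 * G p a - 1, by omega, ?_⟩
  have h1 := lower p k a
  unfold rat
  have h2 : (0 : ℝ) < ((2 * G p a - 1 : ℕ) : ℝ) := by
    exact_mod_cast (by omega : 0 < 2 * G p a - 1)
  rw [pow_one, le_div_iff₀ h2]
  have h3 : 3 * (2 * G p a - 1) ≤ 2 * Module.finrank k (FF p k (2 * G p a - 1)) := by omega
  have h4 : ((3 * (2 * G p a - 1) : ℕ) : ℝ) ≤
    ((2 * Module.finrank k (FF p k (2 * G p a - 1)) : ℕ) : ℝ) := by exact_mod_cast h3
  rw [Nat.cast_mul, Nat.cast_mul] at h4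
  push_cast at h4 ⊢
  linarith

theorem rat_frequently_le (k : Type u) [Field k] [CharP k p] :
    ∃ᶠ i in (atTop : Filter ℕ), rat p k i ≤ 5 / 4 := by
  rw [frequently_atTop]
  intro a
  have hle : a + 4 ≤ G p (a + 4) := (G_strictMono p).le_apply
  have hpos := G_pos p (a + 4)
  have hgt := G_gt p (a + 4)
  refine ⟨G p (a + 4) - 1, by omega, ?_⟩
  have h1 := upper1 p k (G p (a + 4) - 1) (a + 4) (by omega)
  unfold rat
  have h2 : (0 : ℝ) < ((G p (a + 4) - 1 : ℕ) : ℝ) := by
    exact_mod_cast (by omega : 0 < G p (a + 4) - 1)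
  rw [pow_one, div_le_iff₀ h2]
  have h5 : 5 * (S p (a + 4) + 1) ≤ G p (a + 4) := by nlinarith
  have h3 : 4 * Module.finrank k (FF p k (G p (a + 4) - 1)) ≤ 5 * (G p (a + 4) - 1) := by omega
  have h4 : ((4 * Module.finrank k (FF p k (G p (a + 4) - 1)) : ℕ) : ℝ) ≤
    ((5 * (G p (a + 4) - 1) : ℕ) : ℝ) := by exact_mod_cast h3
  rw [Nat.cast_mul, Nat.cast_mul] at h4
  push_cast at h4 ⊢
  linarith

theorem limsup_eq (k : Type u) [Field k] [CharP k p] :
    limsup (rat p k) (atTop : Filter ℕ) = 3 / 2 := by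
  have hb : ∀ᶠ i in (atTop : Filter ℕ), rat p k i ≤ 3 / 2 + 4 := by
    have := rat_upper p k 0
    filter_upwards [this] with i hi
    simpa using hi
  have hbd : IsBoundedUnder (· ≤ ·) (atTop : Filter ℕ) (rat p k) := ⟨_, eventually_map.2 hb⟩
  have hnn : ∀ i, 0 ≤ rat p k i := fun i => by unfold rat; positivity
  have hco : IsCoboundedUnder (· ≤ ·) (atTop : Filter ℕ) (rat p k) :=
    (isBoundedUnder_of ⟨0, hnn⟩ : IsBoundedUnder (· ≥ ·) (atTop : Filter ℕ) (rat p k)).isCoboundedUnder_le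
  apply le_antisymm
  · apply le_of_forall_pos_le_add
    intro ε hε
    obtain ⟨n, hn⟩ := exists_nat_gt (4 / ε)
    have h1 : 4 / ((n : ℝ) + 1) ≤ ε := by
      rw [div_le_iff₀ (by positivity)]
      rw [div_lt_iff₀ hε] at hn
      nlinarith
    apply limsup_le_of_le hco
    filter_upwards [rat_upper p k n] with i hi
    linarith
  · exact le_limsup_of_frequently_le (rat_frequently_ge p k) hbd

theorem not_tendsto (k : Type u) [Field k] [CharP k p] (L : ℝ) :
    ¬ Tendsto (rat p k) (atTop : Filter ℕ) (nhds L) := by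
  intro h
  have h1 : L ≤ 5 / 4 := le_of_tendsto_of_frequently h (rat_frequently_le p k)
  have h2 : 3 / 2 ≤ L := ge_of_tendsto_of_frequently h (rat_frequently_ge p k)
  linarith

end Pool.Agent.V113.Hol
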