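import Mathlib

/-!
# Differential operators on `k[x]` in positive characteristic, Bernstein filtration, holonomicity
-/

set_option autoImplicit false

open Polynomial

namespace Pool.Agent.V113.Hol

universe u v

/-- `𝒟`, for `n = 1`: the `k`-subalgebra of `End_k k[X]` generated by the multiplications by
elements of `k[X]` and the maps `D_t = hasseDeriv t`, `D_t (X ^ v) = (v choose t) X ^ (v - t)`. -/
noncomputable def DiffOp (k : Type u) [Field k] : Subalgebra k (Module.End k k[X]) :=
  Algebra.adjoin k (Set.range (fun p : k[X] => (LinearMap.mulLeft k p : Module.End k k[X])) ∪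
    Set.range (fun t : ℕ => (hasseDeriv t : Module.End k k[X])))

/-- The Bernstein filtration: `Bern k s` is the `k`-span of the products `X ^ a D_t` with
`a + t ≤ s`. -/
noncomputable def Bern (k : Type u) [Field k] (s : ℕ) : Submodule k (DiffOp k) :=
  Submodule.span k {P | ∃ a t : ℕ, a + t ≤ s ∧
    (P : Module.End k k[X]) = LinearMap.mulLeft k (X ^ a) * (hasseDeriv t : Module.End k k[X])}

/-- `F_i M_0`: the `k`-span of the products `P • m` with `P` in the `i`-th piece of the Bernstein
filtration and `m ∈ M_0`. -/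
noncomputable def Filt (k : Type u) [Field k] {M : Type v} [AddCommGroup M] [Module k M] [Module (DiffOp k) M]
    (M₀ : Submodule k M) (i : ℕ) : Submodule k M :=
  Submodule.span k {x | ∃ P ∈ Bern k i, ∃ m ∈ M₀, x = P • m}

/-- `k`-filtrations of a left `𝒟`-module. -/
structure IsFiltration (k : Type u) [Field k] {M : Type v} [AddCommGroup M] [Module k M]
    [Module (DiffOp k) M] (F : ℕ → Submodule k M) : Prop where
  mono : Monotone F
  exhaust : ∀ m : M, ∃ i, m ∈ F i
  smul_mem : ∀ i j : ℕ, ∀ P ∈ Bern k i, ∀ m ∈ F j, P • m ∈ F (i + j)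

/-- Holonomic left `𝒟`-modules, for `n = 1`. -/
def IsHolonomic (k : Type u) [Field k] (M : Type v) [AddCommGroup M] [Module k M]
    [Module (DiffOp k) M] : Prop :=
  ∃ F : ℕ → Submodule k M, IsFiltration k F ∧ (∀ i, Module.Finite k (F i)) ∧
    ∃ C : ℝ, ∀ i : ℕ, 1 ≤ i → (Module.finrank k (F i) : ℝ) ≤ C * (i : ℝ) ^ 1

end Pool.Agent.V113.Hol
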