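import Pool.Agent.V113.Hol.Defs

set_option autoImplicit false

open Polynomial Filter

namespace Pool.Agent.V113.Hol

universe u v

variable (p : ℕ)

/-- `S 0 = 0`, `S (j + 1) = S j + G j`, `G j = p ^ ((j + 1) * (S j + 1))`. -/
def S : ℕ → ℕ
  | 0 => 0
  | j + 1 => S j + p ^ ((j + 1) * (S j + 1))

def gg (j : ℕ) : ℕ := (j + 1) * (S p j + 1)

def G (j : ℕ) : ℕ := p ^ gg p j

theorem S_succ (j : ℕ) : S p (j + 1) = S p j + G p j := rfl

variable [hp : Fact p.Prime]

theorem G_gt (j : ℕ) : (j + 1) * (S p j + 1) < G p j := Nat.lt_pow_self hp.out.one_lt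

theorem S_lt_G (j : ℕ) : S p j < G p j := by
  have := G_gt p j
  nlinarith

theorem G_pos (j : ℕ) : 0 < G p j := Nat.pos_of_ne_zero (by have := S_lt_G p j; omega)

theorem S_strictMono : StrictMono (S p) := strictMono_nat_of_lt_succ (fun j => by
  rw [S_succ]; have := G_pos p j; omega)

theorem gg_strictMono : StrictMono (gg p) := strictMono_nat_of_lt_succ (fun j => by
  unfold gg
  have := S_strictMono p (Nat.lt_succ_self j)
  have h : j.succ = j + 1 := rfl
  rw [h] at this
  nlinarith)

theorem G_strictMono : StrictMono (G p) := fun _ _ h =>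
  Nat.pow_lt_pow_right hp.out.one_lt (gg_strictMono p h)

theorem le_S (j : ℕ) : j ≤ S p j := (S_strictMono p).le_apply

theorem lt_pow_gg (t : ℕ) : t < p ^ gg p t := by
  have h1 := G_gt p t
  have h2 : t < (t + 1) * (S p t + 1) := by nlinarith
  exact h2.trans h1

/-- For `e ≥ j`, `S e = S j + p ^ g_j * b`. -/
theorem exists_S_eq {j e : ℕ} (h : j ≤ e) : ∃ b, S p e = S p j + p ^ gg p j * b := by
  induction e, h using Nat.le_induction with
  | base => exact ⟨0, by simp⟩
  | succ e he ih =>
    obtain ⟨b, hb⟩ := ih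
    refine ⟨b + p ^ (gg p e - gg p j), ?_⟩
    have h1 : p ^ gg p e = p ^ gg p j * p ^ (gg p e - gg p j) := by
      rw [← pow_add, Nat.add_sub_cancel' ((gg_strictMono p).monotone he)]
    rw [S_succ, hb, G, h1]
    ring

/-- For `e > j`, `S e = S (j + 1) + p ^ (g_j + 1) * b`. -/
theorem exists_S_eq' {j e : ℕ} (h : j < e) : ∃ b, S p e = S p (j + 1) + p ^ (gg p j + 1) * b := by
  obtain ⟨b, hb⟩ := exists_S_eq p (Nat.succ_le_of_lt h)
  have h1 : gg p j + 1 ≤ gg p (j + 1) := gg_strictMono p (Nat.lt_succ_self j)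
  refine ⟨p ^ (gg p (j + 1) - (gg p j + 1)) * b, ?_⟩
  rw [hb, ← mul_assoc, ← pow_add, Nat.add_sub_cancel' h1]

section choose

variable (k : Type u) [Field k] [CharP k p]

theorem choose_add_pow_mul (a g b t : ℕ) (ht : t < p ^ g) :
    (((a + p ^ g * b).choose t : ℕ) : k) = ((a.choose t : ℕ) : k) := by
  rw [← coeff_one_add_X_pow, ← coeff_one_add_X_pow, pow_add, pow_mul, add_pow_char_pow, one_pow]
  have h1 : (X : k[X]) ^ p ^ g ∣ (1 + X ^ p ^ g) ^ b - 1 := by
    have := sub_dvd_pow_sub_pow (1 + (X : k[X]) ^ p ^ g) 1 b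
    rwa [one_pow, add_sub_cancel_left] at this
  obtain ⟨q, hq⟩ := h1
  have h2 : (1 + (X : k[X]) ^ p ^ g) ^ b = 1 + X ^ p ^ g * q := by
    rw [← hq]
    ring
  rw [h2, mul_add, mul_one, coeff_add]
  have h3 : ((1 + X) ^ a * ((X : k[X]) ^ p ^ g * q)).coeff t = 0 := by
    have : (1 + X) ^ a * ((X : k[X]) ^ p ^ g * q) = X ^ p ^ g * ((1 + X) ^ a * q) := by ring
    rw [this, coeff_X_pow_mul', if_neg (by omega)]
  rw [h3, add_zero]

theorem choose_add_pow (a g : ℕ) (ha : a < p ^ g) :
    (((a + p ^ g).choose (p ^ g) : ℕ) : k) = 1 := by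
  rw [← coeff_one_add_X_pow, pow_add, add_pow_char_pow, one_pow, mul_add, mul_one, coeff_add,
    coeff_mul_X_pow', if_pos le_rfl, Nat.sub_self, coeff_one_add_X_pow, coeff_one_add_X_pow,
    Nat.choose_eq_zero_of_lt ha]
  simp

theorem choose_S_zero {j t e : ℕ} (h1 : S p j < t) (h2 : t < G p j) (he : j ≤ e) :
    (((S p e).choose t : ℕ) : k) = 0 := by
  obtain ⟨b, hb⟩ := exists_S_eq p he
  rw [hb, choose_add_pow_mul p k _ _ _ _ h2, Nat.choose_eq_zero_of_lt h1, Nat.cast_zero]

theorem choose_S_G {j e : ℕ} (he : j < e) : (((S p e).choose (G p j) : ℕ) : k) = 1 := by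
  obtain ⟨b, hb⟩ := exists_S_eq' p he
  have h1 : G p j < p ^ (gg p j + 1) := Nat.pow_lt_pow_right hp.out.one_lt (Nat.lt_succ_self _)
  rw [hb, choose_add_pow_mul p k _ _ _ _ h1, S_succ]
  exact choose_add_pow p k _ _ (S_lt_G p j)

end choose

/-- The operator `X ^ a D_t`. -/
noncomputable def op (k : Type u) [Field k] (a t : ℕ) : Module.End k k[X] :=
  LinearMap.mulLeft k (X ^ a) * (hasseDeriv t : Module.End k k[X])

omit hp in
theorem op_X_pow (k : Type u) [Field k] (a t n : ℕ) :
    op k a t (X ^ n) = ((n.choose t : ℕ) : k) • (X : k[X]) ^ (a + (n - t)) := by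
  unfold op
  rw [Module.End.mul_apply, LinearMap.mulLeft_apply, X_pow_eq_monomial n, hasseDeriv_monomial,
    ← C_mul_X_pow_eq_monomial, smul_eq_C_mul, pow_add]
  simp
  ring

/-- The eventually zero sequences. -/
noncomputable def Ev (k : Type u) [Field k] : Submodule (Module.End k k[X]) (ℕ → k[X]) where
  carrier := {f | ∀ᶠ e in (atTop : Filter ℕ), f e = 0}
  add_mem' := by
    intro f g hf hg
    filter_upwards [hf, hg] with e h1 h2
    rw [Pi.add_apply, h1, h2, add_zero]
  zero_mem' := by
    filter_upwards with e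
    rfl
  smul_mem' := by
    intro P f hf
    filter_upwards [hf] with e h1
    rw [Pi.smul_apply, h1, smul_zero]

/-- Sequences modulo eventually zero sequences. -/
abbrev NN (k : Type u) [Field k] : Type u := (ℕ → k[X]) ⧸ Ev k

/-- The class map. -/
noncomputable abbrev mk (k : Type u) [Field k] : (ℕ → k[X]) →ₗ[Module.End k k[X]] NN k := (Ev k).mkQ

omit hp in
theorem mk_eq_mk (k : Type u) [Field k] (f g : ℕ → k[X])
    (h : ∀ᶠ e in (atTop : Filter ℕ), f e = g e) : mk k f = mk k g := by
  rw [← sub_eq_zero, ← map_sub]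
  change Submodule.Quotient.mk _ = _
  rw [Submodule.Quotient.mk_eq_zero]
  change ∀ᶠ e in (atTop : Filter ℕ), (f - g) e = 0
  filter_upwards [h] with e he
  rw [Pi.sub_apply, he, sub_self]

omit hp in
theorem mk_eq_zero (k : Type u) [Field k] (f : ℕ → k[X]) :
    mk k f = 0 ↔ ∀ᶠ e in (atTop : Filter ℕ), f e = 0 := by
  change Submodule.Quotient.mk _ = _ ↔ _
  rw [Submodule.Quotient.mk_eq_zero]
  rfl

omit hp in
theorem mk_smul (k : Type u) [Field k] (c : k) (f : ℕ → k[X]) : mk k (c • f) = c • mk k f := rfl

instance towN (k : Type u) [Field k] : IsScalarTower k (Module.End k k[X]) (NN k) where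
  smul_assoc c P w := by
    obtain ⟨f, rfl⟩ := (Ev k).mkQ_surjective w
    rfl

/-- `v m`, the class of `(X ^ (S e + m))_e` modulo eventually zero sequences. -/
noncomputable def vv (k : Type u) [Field k] (m : ℤ) : NN k :=
  mk k (fun e => (X : k[X]) ^ (((S p e : ℤ) + m).toNat))

theorem tendsto_S : ∀ m : ℤ, ∀ᶠ e in (atTop : Filter ℕ), 0 ≤ (S p e : ℤ) + m := by
  intro m
  filter_upwards [eventually_ge_atTop (-m).toNat] with e he
  have := le_S p e
  omega

theorem op_smul_vv (k : Type u) [Field k] [CharP k p] (a t : ℕ) (m : ℤ) :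
    ∃ c : k, op k a t • vv p k m = c • vv p k (m + a - t) := by
  set j := t + (-m).toNat with hj
  refine ⟨((((S p j : ℤ) + m).toNat.choose t : ℕ) : k), ?_⟩
  unfold vv
  rw [← map_smul, ← mk_smul]
  apply mk_eq_mk
  filter_upwards [eventually_ge_atTop j, tendsto_S p (m - t)] with e he hm
  obtain ⟨b, hb⟩ := exists_S_eq p he
  have h1 := le_S p j
  have h2 : ((S p e : ℤ) + m).toNat = ((S p j : ℤ) + m).toNat + p ^ gg p j * b := by
    rw [hb]
    generalize p ^ gg p j * b = q
    omega
  have h3 : t < p ^ gg p j := by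
    have := lt_pow_gg p j
    omega
  simp only [Pi.smul_apply]
  change op k a t _ = _
  rw [op_X_pow]
  congr 1
  · rw [h2, choose_add_pow_mul p k _ _ _ _ h3]
  · congr 1
    omega

theorem op_smul_u (k : Type u) [Field k] [CharP k p] (a t : ℕ) {j : ℕ} (h1 : S p j < t)
    (h2 : t < G p j) : op k a t • vv p k 0 = 0 := by
  unfold vv
  rw [← map_smul, mk_eq_zero]
  filter_upwards [eventually_ge_atTop j] with e he
  simp only [Pi.smul_apply]
  change op k a t _ = _
  rw [op_X_pow, add_zero, Int.toNat_natCast, choose_S_zero p k h1 h2 he, zero_smul]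

theorem op_smul_u_G (k : Type u) [Field k] [CharP k p] (a j : ℕ) :
    op k a (G p j) • vv p k 0 = vv p k ((a : ℤ) - G p j) := by
  unfold vv
  rw [← map_smul]
  apply mk_eq_mk
  filter_upwards [eventually_gt_atTop j, tendsto_S p (-(G p j : ℤ))] with e he hm
  simp only [Pi.smul_apply]
  change op k a (G p j) _ = _
  rw [op_X_pow, add_zero, Int.toNat_natCast, choose_S_G p k he, one_smul]
  congr 1
  omega

omit hp in
theorem op_smul_u_zero (k : Type u) [Field k] (a : ℕ) :
    op k a 0 • vv p k 0 = vv p k (a : ℤ) := by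
  unfold vv
  rw [← map_smul]
  apply mk_eq_mk
  filter_upwards with e
  simp only [Pi.smul_apply]
  change op k a 0 _ = _
  rw [op_X_pow, add_zero, Int.toNat_natCast, Nat.choose_zero_right, Nat.cast_one, one_smul]
  congr 1
  omega

theorem vv_linearIndependent (k : Type u) [Field k] : LinearIndependent k (vv p k) := by
  rw [linearIndependent_iff']
  intro s c hc i hi
  have h1 : mk k (∑ m ∈ s, c m • (fun e => (X : k[X]) ^ (((S p e : ℤ) + m).toNat))) = 0 := by
    rw [map_sum]
    exact hc
  rw [mk_eq_zero] at h1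
  have h3 : ∀ᶠ e in (atTop : Filter ℕ), ∀ m ∈ s, 0 ≤ (S p e : ℤ) + m :=
    (Filter.eventually_all_finset s).2 (fun m _ => tendsto_S p m)
  obtain ⟨e, he, he'⟩ := (h1.and h3).exists
  have h4 := congrArg (fun q => coeff q (((S p e : ℤ) + i).toNat)) he
  simp only [Finset.sum_apply, Pi.smul_apply, finsetSum_coeff, coeff_smul, coeff_X_pow,
    coeff_zero] at h4
  rw [Finset.sum_eq_single i] at h4
  · simpa using h4
  · intro m hm hmi
    rw [if_neg, smul_zero]
    intro h5
    have := he' m hm
    have := he' i hi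
    apply hmi
    omega
  · intro h
    exact absurd hi h

omit hp in
theorem smul_def (k : Type u) [Field k] (P : DiffOp k) (w : NN k) :
    P • w = (P : Module.End k k[X]) • w := rfl

omit hp in
theorem end_smul_smul (k : Type u) [Field k] (c : k) (P : Module.End k k[X])
    (w : NN k) : P • (c • w) = c • (P • w) := by
  obtain ⟨f, rfl⟩ := (Ev k).mkQ_surjective w
  change mk k (P • (c • f)) = mk k (c • (P • f))
  congr 1
  funext e
  exact map_smul P c (f e)

theorem op_smul_span (k : Type u) [Field k] [CharP k p] (s s' : Set ℤ) (a t : ℕ)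
    (h : ∀ m ∈ s, m + a - t ∈ s') (w : NN k)
    (hw : w ∈ Submodule.span k (vv p k '' s)) :
    op k a t • w ∈ Submodule.span k (vv p k '' s') := by
  induction hw using Submodule.span_induction with
  | mem x hx =>
    obtain ⟨m, hm, rfl⟩ := hx
    obtain ⟨c, hc⟩ := op_smul_vv p k a t m
    rw [hc]
    exact Submodule.smul_mem _ _ (Submodule.subset_span ⟨_, h m hm, rfl⟩)
  | zero => rw [smul_zero]; exact Submodule.zero_mem _
  | add x y _ _ hx hy => rw [smul_add]; exact Submodule.add_mem _ hx hy
  | smul c x _ hx => rw [end_smul_smul]; exact Submodule.smul_mem _ _ hx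

omit hp in
theorem bern_smul (k : Type u) [Field k] (i : ℕ) (V : Submodule k (NN k))
    (w : NN k) (h : ∀ a t : ℕ, a + t ≤ i → op k a t • w ∈ V)
    (P : DiffOp k) (hP : P ∈ Bern k i) : P • w ∈ V := by
  induction hP using Submodule.span_induction with
  | mem x hx =>
    obtain ⟨a, t, hat, hx⟩ := hx
    rw [smul_def, hx]
    exact h a t hat
  | zero => rw [zero_smul]; exact Submodule.zero_mem _
  | add x y _ _ hx hy => rw [add_smul]; exact Submodule.add_mem _ hx hy
  | smul c x _ hx => rw [smul_assoc]; exact Submodule.smul_mem _ _ hx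

theorem stable (k : Type u) [Field k] [CharP k p] (P : Module.End k k[X]) (hP : P ∈ DiffOp k) :
    ∀ w ∈ Submodule.span k (vv p k '' Set.univ), P • w ∈ Submodule.span k (vv p k '' Set.univ) := by
  induction hP using Algebra.adjoin_induction with
  | mem x hx =>
    intro w hw
    rcases hx with ⟨q, rfl⟩ | ⟨t, rfl⟩
    · induction q using Polynomial.induction_on' with
      | add q r hq hr =>
        have : (LinearMap.mulLeft k (q + r) : Module.End k k[X]) =
            LinearMap.mulLeft k q + LinearMap.mulLeft k r := by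
          apply LinearMap.ext
          intro f
          simp [add_mul]
        change (LinearMap.mulLeft k (q + r) : Module.End k k[X]) • w ∈ _
        rw [this, add_smul]
        exact Submodule.add_mem _ hq hr
      | monomial n c =>
        have : (LinearMap.mulLeft k (monomial n c) : Module.End k k[X]) = c • op k n 0 := by
          apply LinearMap.ext
          intro f
          rw [op, hasseDeriv_zero]
          simp [← C_mul_X_pow_eq_monomial, smul_eq_C_mul]
        change (LinearMap.mulLeft k (monomial n c) : Module.End k k[X]) • w ∈ _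
        rw [this, smul_assoc]
        exact Submodule.smul_mem _ _
          (op_smul_span p k Set.univ Set.univ n 0 (fun _ _ => Set.mem_univ _) _ hw)
    · have : (hasseDeriv t : Module.End k k[X]) = op k 0 t := by
        rw [op, pow_zero, LinearMap.mulLeft_one]
        rfl
      change (hasseDeriv t : Module.End k k[X]) • w ∈ _
      rw [this]
      exact op_smul_span p k Set.univ Set.univ 0 t (fun _ _ => Set.mem_univ _) _ hw
  | algebraMap c =>
    intro w hw
    rw [Algebra.algebraMap_eq_smul_one, smul_assoc, one_smul]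
    exact Submodule.smul_mem _ _ hw
  | add x y _ _ hx hy =>
    intro w hw
    rw [add_smul]
    exact Submodule.add_mem _ (hx w hw) (hy w hw)
  | mul x y _ _ hx hy =>
    intro w hw
    rw [mul_smul]
    exact hx _ (hy w hw)

/-- The module: the `𝒟`-submodule generated by `v 0`. -/
noncomputable abbrev MM (k : Type u) [Field k] : Submodule (DiffOp k) (NN k) :=
  Submodule.span (DiffOp k) {vv p k 0}

theorem MM_le (k : Type u) [Field k] [CharP k p] (w : NN k)
    (hw : w ∈ MM p k) : w ∈ Submodule.span k (vv p k '' Set.univ) := by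
  rw [Submodule.mem_span_singleton] at hw
  obtain ⟨P, rfl⟩ := hw
  rw [smul_def]
  exact stable p k P P.2 _ (Submodule.subset_span ⟨0, trivial, rfl⟩)

noncomputable instance instACG (k : Type u) [Field k] : AddCommGroup (MM p k) :=
  @Submodule.addCommGroup (DiffOp k) (NN k) _ _ _ (MM p k)

/-- The inclusion of the module in the germs. -/
noncomputable def incl (k : Type u) [Field k] :
    MM p k →ₗ[k] NN k where
  toFun x := x
  map_add' _ _ := rfl
  map_smul' _ _ := rfl

omit hp in
theorem incl_injective (k : Type u) [Field k] : Function.Injective (incl p k) :=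
  Subtype.val_injective

omit hp in
theorem incl_smul (k : Type u) [Field k] (P : DiffOp k) (x : MM p k) :
    incl p k (P • x) = P • incl p k x := rfl

/-- A filtration showing holonomicity. -/
noncomputable def HF (k : Type u) [Field k] (j : ℕ) : Submodule k (MM p k) :=
  (Submodule.span k (vv p k '' Set.Icc (-(j : ℤ)) j)).comap (incl p k)

theorem exists_mem_HF (k : Type u) [Field k] [CharP k p] (x : MM p k) : ∃ j, x ∈ HF p k j := by
  have h1 := MM_le p k (incl p k x) x.2
  have h2 : ∀ w ∈ Submodule.span k (vv p k '' Set.univ),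
      ∃ j : ℕ, w ∈ Submodule.span k (vv p k '' Set.Icc (-(j : ℤ)) j) := by
    intro w hw
    induction hw using Submodule.span_induction with
    | mem y hy =>
      obtain ⟨m, _, rfl⟩ := hy
      refine ⟨m.natAbs, Submodule.subset_span ⟨m, ?_, rfl⟩⟩
      rw [Set.mem_Icc]
      omega
    | zero => exact ⟨0, Submodule.zero_mem _⟩
    | add y z _ _ hy hz =>
      obtain ⟨j, hj⟩ := hy
      obtain ⟨j', hj'⟩ := hz
      refine ⟨max j j', Submodule.add_mem _ ?_ ?_⟩
      · refine Submodule.span_mono (Set.image_mono (Set.Icc_subset_Icc ?_ ?_)) hj <;> simp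
      · refine Submodule.span_mono (Set.image_mono (Set.Icc_subset_Icc ?_ ?_)) hj' <;> simp
    | smul c y _ hy =>
      obtain ⟨j, hj⟩ := hy
      exact ⟨j, Submodule.smul_mem _ _ hj⟩
  exact h2 _ h1

theorem HF_filtration (k : Type u) [Field k] [CharP k p] : IsFiltration k (HF p k) where
  mono := by
    intro i j hij
    apply Submodule.comap_mono
    apply Submodule.span_mono
    apply Set.image_mono
    apply Set.Icc_subset_Icc <;> omega
  exhaust := exists_mem_HF p k
  smul_mem := by
    intro i j P hP x hx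
    change incl p k (P • x) ∈
      Submodule.span k (vv p k '' Set.Icc (-((i + j : ℕ) : ℤ)) ((i + j : ℕ) : ℤ))
    rw [incl_smul]
    apply bern_smul k i _ _ _ P hP
    intro a t hat
    refine op_smul_span p k _ _ a t ?_ _ hx
    intro m hm
    rw [Set.mem_Icc] at hm ⊢
    push_cast
    omega

omit hp in
theorem finite_comap (k : Type u) [Field k] (s : Finset ℤ) :
    Module.Finite k ((Submodule.span k (vv p k '' s)).comap (incl p k)) ∧
    Module.finrank k ((Submodule.span k (vv p k '' s)).comap (incl p k)) ≤ s.card := by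
  classical
  have h1 : Module.Finite k (Submodule.span k (vv p k '' s)) := by
    rw [← Finset.coe_image]
    infer_instance
  have h2 : Module.finrank k (Submodule.span k (vv p k '' s)) ≤ s.card := by
    rw [← Finset.coe_image]
    exact (finrank_span_finset_le_card _).trans Finset.card_image_le
  let f : (Submodule.span k (vv p k '' s)).comap (incl p k) →ₗ[k]
      Submodule.span k (vv p k '' s) := (incl p k).restrict (fun x hx => hx)
  have hf : Function.Injective f := by
    intro x y hxy
    apply Subtype.ext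
    apply incl_injective
    have h3 := congrArg Subtype.val hxy
    exact h3
  exact ⟨Module.Finite.of_injective f hf, (LinearMap.finrank_le_finrank_of_injective hf).trans h2⟩

theorem holonomic (k : Type u) [Field k] [CharP k p] : IsHolonomic k (MM p k) := by
  refine ⟨HF p k, HF_filtration p k, ?_, 3, ?_⟩
  · intro i
    have := (finite_comap p k (Finset.Icc (-(i : ℤ)) i)).1
    rwa [Finset.coe_Icc] at this
  · intro i hi
    have h1 := (finite_comap p k (Finset.Icc (-(i : ℤ)) i)).2
    rw [Finset.coe_Icc, Int.card_Icc] at h1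
    change Module.finrank k (HF p k i) ≤ _ at h1
    have h2 : ((i : ℤ) + 1 - -(i : ℤ)).toNat = 2 * i + 1 := by omega
    rw [h2] at h1
    have h3 : Module.finrank k (HF p k i) ≤ 3 * i := by omega
    rw [pow_one]
    exact_mod_cast h3

end Pool.Agent.V113.Hol
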